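import Pool.Agent.X164.FM.Tree
set_option autoImplicit false

/-! Filtered Marton theorem. -/

open scoped Classical Pointwise
set_option linter.unusedSectionVars false
set_option linter.unusedVariables false

namespace Pool.Agent.X164.FM

open H137.PFR H137.TwoPow H137.Weak

variable {Γ : Type*} [AddCommGroup Γ]

theorem filtered {K : ℝ} {A : Finset Γ} (hA : A.Nonempty)
    (hK : ((A + A).card : ℝ) ≤ K * A.card) (m k : ℕ) (G : ℕ → AddSubgroup Γ)
    (hle : ∀ j < k, G (j + 1) ≤ G j)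
    (hexp : ∀ j < k, ∃ e : ℕ, 1 ≤ e ∧ e ≤ m ∧ ∀ x ∈ G j, e • x ∈ G (j + 1)) :
    ∃ (V : ℕ → AddSubgroup Γ) (A' T : Finset Γ),
      (∀ j < k, G (j + 1) ≤ V j ∧ V j ≤ G j ∧ (G (j + 1)).relIndex (V j) ≠ 0) ∧
      A' ⊆ A ∧ (A.card : ℝ) ≤ K ^ (492052 * (Nat.log 2 m + 1)) * A'.card ∧
      (∀ a ∈ A', ∀ b ∈ A', ∀ j < k, a - b ∈ G j → a - b ∈ V j) ∧
      (∀ i ≤ k, ((∏ j ∈ Finset.range i, (G (j + 1)).relIndex (V j) : ℕ) : ℝ) ≤
        K ^ (492052 * (Nat.log 2 m + 1)) *
          ((QuotientAddGroup.mk' (G i)) '' (A : Set Γ)).ncard) ∧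
      T ⊆ A ∧ (T.card : ℝ) ≤ K ^ (492052 * (Nat.log 2 m + 1) + 1) ∧
      ∀ a ∈ A, ∃ t ∈ T, ∃ x ∈ A', ∃ y ∈ A', a = t + (x - y) := by
  have hc : (0 : ℝ) < A.card := by exact_mod_cast hA.card_pos
  have hK1 : 1 ≤ K := by
    have h1 : (A.card : ℝ) ≤ (A + A).card := by
      exact_mod_cast Finset.card_le_card_add_right hA
    nlinarith
  have hK0 : 0 < K := by linarith
  have hlogK : 0 ≤ Real.log K := Real.log_nonneg hK1
  set t := Nat.log 2 m + 1 with ht
  have hmt : m ≤ 2 ^ t := (Nat.lt_pow_succ_log_self (by norm_num) m).le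
  have ht1 : 1 ≤ t := by omega
  have hpow : Real.exp (492052 * t * Real.log K) = K ^ (492052 * t) := by
    have h1 : (492052 * (t : ℝ)) * Real.log K = ((492052 * t : ℕ) : ℝ) * Real.log K := by
      push_cast; ring
    rw [h1, Real.exp_nat_mul, Real.exp_log hK0]
  have hw := law_uw hA
  set w := uw A with hwdef
  set X : A → Γ := fun ω : A => (ω : Γ) with hX
  have hκ : kap w X ≤ 2 * Real.log K := kap_uw hA hK1 hK
  have hstage : ∀ j, ∃ N' : AddSubgroup Γ, j < k → (G (j + 1) ≤ N' ∧ N' ≤ G j ∧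
      (G (j + 1)).relIndex N' ≠ 0 ∧
      2 * hh w X N' + Real.log ((G (j + 1)).relIndex N') ≤
        hh w X (G (j + 1)) + hh w X (G j) + 246026 * t * (kk w X (G (j + 1)) - kk w X (G j))) := by
    intro j
    by_cases hj : j < k
    · obtain ⟨e, he1, hem, he⟩ := hexp j hj
      obtain ⟨N', h1, h2, h3, h4⟩ := stage_pair_m t ht1 he1 (hem.trans hmt) hw X (hle j hj) he
      exact ⟨N', fun _ => ⟨h1, h2, h3, h4⟩⟩
    · exact ⟨⊥, fun h => absurd h hj⟩
  choose V hV using hstage
  -- per level bounds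
  have hb1 : ∀ j < k, hh w X (V j) - hh w X (G j) ≤
      246026 * t * (kk w X (G (j + 1)) - kk w X (G j)) := by
    intro j hj
    obtain ⟨h1, h2, h3, h4⟩ := hV j hj
    have h5 := hh_le_add_log hw X h1 h3
    linarith
  have hb2 : ∀ j < k, Real.log ((G (j + 1)).relIndex (V j)) ≤
      (hh w X (G (j + 1)) - hh w X (G j)) +
        246026 * t * (kk w X (G (j + 1)) - kk w X (G j)) := by
    intro j hj
    obtain ⟨h1, h2, h3, h4⟩ := hV j hj
    have h5 := hh_anti hw X h2
    linarith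
  have htel : ∀ i, ∑ j ∈ Finset.range i, 246026 * (t : ℝ) * (kk w X (G (j + 1)) - kk w X (G j)) ≤
      492052 * t * Real.log K := by
    intro i
    rw [← Finset.mul_sum, Finset.sum_range_sub (fun j => kk w X (G j))]
    have h1 := kk_le hw X (G i)
    have h2 := kk_nonneg hw X (G 0)
    have h3 : (0 : ℝ) ≤ 246026 * t := by positivity
    have h4 : kk w X (G i) - kk w X (G 0) ≤ 2 * Real.log K := by linarith
    calc 246026 * (t : ℝ) * (kk w X (G i) - kk w X (G 0)) ≤ 246026 * t * (2 * Real.log K) :=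
          mul_le_mul_of_nonneg_left h4 h3
      _ = _ := by ring
  have hs1 : ∑ j ∈ Finset.range k, (hh w X (V j) - hh w X (G j)) ≤ 492052 * t * Real.log K :=
    (Finset.sum_le_sum fun j hj => hb1 j (Finset.mem_range.1 hj)).trans (htel k)
  have hs2 : ∀ i ≤ k, ∑ j ∈ Finset.range i, Real.log ((G (j + 1)).relIndex (V j)) ≤
      hh w X (G i) + 492052 * t * Real.log K := by
    intro i hi
    refine (Finset.sum_le_sum fun j hj => hb2 j (lt_of_lt_of_le (Finset.mem_range.1 hj) hi)).trans ?_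
    rw [Finset.sum_add_distrib, Finset.sum_range_sub (fun j => hh w X (G j))]
    have h2 := hh_nonneg hw X (G 0)
    have h3 := htel i
    linarith
  -- the subset
  obtain ⟨s, hs⟩ := choose_levels hw k (fun j ω => (X ω : Γ ⧸ G j)) (fun j ω => (X ω : Γ ⧸ V j))
    (fun j hj ω ω' h => by
      rw [QuotientAddGroup.eq] at h ⊢
      exact (hV j hj).2.1 h)
  have hlow := prod_lower hw k (fun j ω => (X ω : Γ ⧸ G j)) (fun j ω => (X ω : Γ ⧸ V j))
  set A' : Finset Γ := A.filter (fun a => ∀ j ∈ Finset.range k,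
    ((a : Γ ⧸ V j) = s j (a : Γ ⧸ G j))) with hA'
  have hcount : ∑ ω, w ω * ∏ j ∈ Finset.range k,
      (if (X ω : Γ ⧸ V j) = s j (X ω : Γ ⧸ G j) then (1 : ℝ) else 0) =
      A'.card / A.card := by
    have h1 : ∀ ω : A, w ω * ∏ j ∈ Finset.range k,
        (if (X ω : Γ ⧸ V j) = s j (X ω : Γ ⧸ G j) then (1 : ℝ) else 0) =
        (if (∀ j ∈ Finset.range k, (((ω : Γ) : Γ ⧸ V j) = s j ((ω : Γ) : Γ ⧸ G j)))
          then (A.card : ℝ)⁻¹ else 0) := by
      intro ω
      rw [Finset.prod_ite_zero]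
      by_cases h : ∀ j ∈ Finset.range k, (((ω : Γ) : Γ ⧸ V j) = s j ((ω : Γ) : Γ ⧸ G j))
      · rw [if_pos h, if_pos h, Finset.prod_const_one, mul_one]
        rfl
      · rw [if_neg h, if_neg h, mul_zero]
    rw [Finset.sum_congr rfl fun ω _ => h1 ω,
      Finset.sum_coe_sort A (fun a => if (∀ j ∈ Finset.range k,
        ((a : Γ ⧸ V j) = s j (a : Γ ⧸ G j))) then (A.card : ℝ)⁻¹ else 0),
      ← Finset.sum_filter, Finset.sum_const, nsmul_eq_mul]
    rfl
  have hA'big : (A.card : ℝ) ≤ K ^ (492052 * t) * A'.card := by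
    have hs' : ∑ ω, w ω * ∏ j ∈ Finset.range k, (push w (fun ω => (X ω : Γ ⧸ V j)) (X ω) /
        push w (fun ω => (X ω : Γ ⧸ G j)) (X ω)) ≤
        ∑ ω, w ω * ∏ j ∈ Finset.range k,
      (if (X ω : Γ ⧸ V j) = s j (X ω : Γ ⧸ G j) then (1 : ℝ) else 0) := by
      refine hs.trans (le_of_eq (Finset.sum_congr rfl fun ω _ => ?_))
      refine congrArg (fun z => w ω * z) (Finset.prod_congr rfl fun j _ => ?_)
      by_cases h : (X ω : Γ ⧸ V j) = s j (X ω : Γ ⧸ G j)
      · rw [if_pos h, if_pos h]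
      · rw [if_neg h, if_neg h]
    have h1 : Real.exp (-(492052 * t * Real.log K)) ≤ A'.card / A.card := by
      rw [← hcount]
      refine le_trans ?_ (hlow.trans hs')
      apply Real.exp_le_exp.2
      have h2 : ∑ j ∈ Finset.range k, (Hg w (fun ω => (X ω : Γ ⧸ V j)) -
          Hg w (fun ω => (X ω : Γ ⧸ G j))) ≤ 492052 * t * Real.log K := hs1
      linarith
    rw [le_div_iff₀ hc, Real.exp_neg, hpow, inv_mul_le_iff₀ (by positivity)] at h1
    exact h1
  have hA'ne : A'.Nonempty := by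
    rw [← Finset.card_pos]
    by_contra hcon
    have h0 : A'.card = 0 := by omega
    rw [h0] at hA'big
    simp at hA'big
    rw [hA'big] at hA
    exact Finset.not_nonempty_empty hA
  have hcov : ((A + A').card : ℝ) ≤ K ^ (492052 * t + 1) * A'.card := by
    have h1 : ((A + A').card : ℝ) ≤ (A + A).card := by
      exact_mod_cast Finset.card_le_card (Finset.add_subset_add_left (Finset.filter_subset _ _))
    calc ((A + A').card : ℝ) ≤ K * A.card := h1.trans hK
      _ ≤ K * (K ^ (492052 * t) * A'.card) := mul_le_mul_of_nonneg_left hA'big hK0.le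
      _ = _ := by rw [pow_succ]; ring
  obtain ⟨T, hTA, hT, hAT⟩ := Finset.ruzsa_covering_add hA'ne hcov
  refine ⟨V, A', T, fun j hj => ⟨(hV j hj).1, (hV j hj).2.1, (hV j hj).2.2.1⟩,
    Finset.filter_subset _ _, hA'big, ?_, ?_, hTA, hT, ?_⟩
  · intro a ha b hb j hj hab
    have ha' := (Finset.mem_filter.1 ha).2 j (Finset.mem_range.2 hj)
    have hb' := (Finset.mem_filter.1 hb).2 j (Finset.mem_range.2 hj)
    have h1 : (a : Γ ⧸ G j) = (b : Γ ⧸ G j) := by
      rw [eq_comm, QuotientAddGroup.eq]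
      have : -b + a = a - b := by abel
      rw [this]
      exact hab
    rw [← h1, ← ha', QuotientAddGroup.eq] at hb'
    have h2 : a - b = -(b) + a := by abel
    have h3 := (V j).neg_mem hb'
    have h4 : -(-b + a) = -(a - b) := by abel
    rw [h4] at h3
    have h5 := (V j).neg_mem h3
    rwa [neg_neg] at h5
  · intro i hi
    have hpos : ∀ j ∈ Finset.range i, ((G (j + 1)).relIndex (V j) : ℝ) ≠ 0 := by
      intro j hj
      exact_mod_cast (hV j (lt_of_lt_of_le (Finset.mem_range.1 hj) hi)).2.2.1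
    have h1 : Real.log ((∏ j ∈ Finset.range i, (G (j + 1)).relIndex (V j) : ℕ) : ℝ) =
        ∑ j ∈ Finset.range i, Real.log ((G (j + 1)).relIndex (V j)) := by
      rw [Nat.cast_prod, Real.log_prod hpos]
    have himg : (QuotientAddGroup.mk' (G i)) '' (A : Set Γ) =
        ((A.image (QuotientAddGroup.mk' (G i)) : Finset (Γ ⧸ G i)) : Set (Γ ⧸ G i)) := by
      rw [Finset.coe_image]
    rw [himg, Set.ncard_coe_finset]
    have h2 : hh w X (G i) ≤ Real.log ((A.image (QuotientAddGroup.mk' (G i))).card) :=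
      Hg_le_log_card hw _ _ fun ω => Finset.mem_image_of_mem _ ω.2
    have hcardpos : (0 : ℝ) < (A.image (QuotientAddGroup.mk' (G i))).card := by
      exact_mod_cast (hA.image _).card_pos
    have hNpos : (0 : ℝ) < ((∏ j ∈ Finset.range i, (G (j + 1)).relIndex (V j) : ℕ) : ℝ) := by
      rw [Nat.cast_prod]
      exact Finset.prod_pos fun j hj => lt_of_le_of_ne (Nat.cast_nonneg _) (Ne.symm (hpos j hj))
    rw [← Real.log_le_log_iff hNpos (by positivity), Real.log_mul (by positivity) hcardpos.ne',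
      ← hpow, Real.log_exp, h1]
    have h3 := hs2 i hi
    linarith
  · intro a ha
    obtain ⟨f, hf, d, hd, hfd⟩ := Finset.mem_add.1 (hAT ha)
    obtain ⟨x, hx, y, hy, hxy⟩ := Finset.mem_sub.1 hd
    exact ⟨f, hf, x, hx, y, hy, by rw [← hfd, hxy]⟩

/-- infinitely many levels -/
theorem filtered_inf {K : ℝ} {A : Finset Γ} (hA : A.Nonempty)
    (hK : ((A + A).card : ℝ) ≤ K * A.card) (m : ℕ) (G : ℕ → AddSubgroup Γ)
    (hle : ∀ j, G (j + 1) ≤ G j)
    (hexp : ∀ j, ∃ e : ℕ, 1 ≤ e ∧ e ≤ m ∧ ∀ x ∈ G j, e • x ∈ G (j + 1)) :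
    ∃ (V : ℕ → AddSubgroup Γ) (A' T : Finset Γ),
      (∀ j, G (j + 1) ≤ V j ∧ V j ≤ G j ∧ (G (j + 1)).relIndex (V j) ≠ 0) ∧
      A' ⊆ A ∧ (A.card : ℝ) ≤ K ^ (492052 * (Nat.log 2 m + 1)) * A'.card ∧
      (∀ a ∈ A', ∀ b ∈ A', ∀ j, a - b ∈ G j → a - b ∈ V j) ∧
      (∀ i, ((∏ j ∈ Finset.range i, (G (j + 1)).relIndex (V j) : ℕ) : ℝ) ≤
        K ^ (492052 * (Nat.log 2 m + 1)) *
          ((QuotientAddGroup.mk' (G i)) '' (A : Set Γ)).ncard) ∧
      T ⊆ A ∧ (T.card : ℝ) ≤ K ^ (492052 * (Nat.log 2 m + 1) + 1) ∧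
      ∀ a ∈ A, ∃ t ∈ T, ∃ x ∈ A', ∃ y ∈ A', a = t + (x - y) := by
  have hanti : Antitone G := antitone_nat_of_succ_le hle
  -- stabilisation
  have hstab : ∃ k, ∀ a ∈ A, ∀ b ∈ A, ∀ j, k ≤ j → a - b ∈ G j → a - b ∈ G (j + 1) := by
    have h1 : ∀ d : Γ, ∃ n, ∀ j, n ≤ j → d ∈ G j → d ∈ G (j + 1) := by
      intro d
      by_cases h : ∃ n, d ∉ G n
      · obtain ⟨n, hn⟩ := h
        exact ⟨n, fun j hj hd => absurd (hanti hj hd) hn⟩
      · push Not at h
        exact ⟨0, fun j _ _ => h (j + 1)⟩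
    choose f hf using h1
    refine ⟨(A ×ˢ A).sup fun p => f (p.1 - p.2), fun a ha b hb j hj => ?_⟩
    refine hf _ j (le_trans ?_ hj)
    exact Finset.le_sup (f := fun p : Γ × Γ => f (p.1 - p.2)) (Finset.mk_mem_product ha hb)
  obtain ⟨k, hk⟩ := hstab
  obtain ⟨V, A', T, h1, h2, h3, h4, h5, h6, h7, h8⟩ :=
    filtered hA hK m k G (fun j _ => hle j) (fun j _ => hexp j)
  refine ⟨fun j => if j < k then V j else G (j + 1), A', T, ?_, h2, h3, ?_, ?_, h6, h7, h8⟩
  · intro j
    by_cases hj : j < k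
    · simp only [if_pos hj]
      exact h1 j hj
    · simp only [if_neg hj]
      refine ⟨le_rfl, hle j, ?_⟩
      rw [AddSubgroup.relIndex_self]
      exact one_ne_zero
  · intro a ha b hb j hab
    by_cases hj : j < k
    · simp only [if_pos hj]
      exact h4 a ha b hb j hj hab
    · simp only [if_neg hj]
      exact hk a (h2 ha) b (h2 hb) j (not_lt.1 hj) hab
  · intro i
    have hrest : ∀ j, ¬ j < k → (G (j + 1)).relIndex
        (if j < k then V j else G (j + 1)) = 1 := by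
      intro j hj
      rw [if_neg hj, AddSubgroup.relIndex_self]
    by_cases hi : i ≤ k
    · have e1 : ∏ j ∈ Finset.range i, (G (j + 1)).relIndex (if j < k then V j else G (j + 1)) =
          ∏ j ∈ Finset.range i, (G (j + 1)).relIndex (V j) := by
        refine Finset.prod_congr rfl fun j hj => ?_
        rw [if_pos (lt_of_lt_of_le (Finset.mem_range.1 hj) hi)]
      rw [e1]
      exact h5 i hi
    · push Not at hi
      have e1 : ∏ j ∈ Finset.range i, (G (j + 1)).relIndex (if j < k then V j else G (j + 1)) =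
          ∏ j ∈ Finset.range k, (G (j + 1)).relIndex (V j) := by
        rw [← Finset.prod_subset (Finset.range_subset_range.2 hi.le)
          (fun j _ hj => hrest j (fun h => hj (Finset.mem_range.2 h)))]
        refine Finset.prod_congr rfl fun j hj => ?_
        rw [if_pos (Finset.mem_range.1 hj)]
      rw [e1]
      have hK0 : 0 ≤ K := by
        have hc : (0 : ℝ) < A.card := by exact_mod_cast hA.card_pos
        have : (0 : ℝ) ≤ (A + A).card := Nat.cast_nonneg _
        nlinarith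
      refine (h5 k le_rfl).trans (mul_le_mul_of_nonneg_left ?_ (pow_nonneg hK0 _))
      -- more cosets at a finer level
      have h9 : ((QuotientAddGroup.mk' (G k)) '' (A : Set Γ)).ncard ≤
          ((QuotientAddGroup.mk' (G i)) '' (A : Set Γ)).ncard := by
        have h10 : (QuotientAddGroup.mk' (G k)) '' (A : Set Γ) =
            (QuotientAddGroup.map (G i) (G k) (AddMonoidHom.id Γ) (hanti hi.le)) ''
              ((QuotientAddGroup.mk' (G i)) '' (A : Set Γ)) := by
          rw [Set.image_image]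
          rfl
        rw [h10]
        exact Set.ncard_image_le ((Finset.finite_toSet A).image _)
      exact_mod_cast h9

end Pool.Agent.X164.FM
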