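import Pool.Agent.TH404.Tor.Bound
import Pool.Agent.H137R2.Weak.Opt
set_option autoImplicit false

/-! The stage lemma for exponent at most `m`. -/

open scoped Classical
set_option linter.unusedSectionVars false
set_option linter.unusedVariables false

namespace Pool.Agent.X164.FM

open H137.PFR H137.TwoPow H137.Weak

variable {Ω Ωc : Type*} [Fintype Ω] [Fintype Ωc] {G : Type*} [AddCommGroup G]

/-- sums of two independent copies -/
theorem Hg_sum {w : Ω → ℝ} (hw : Law w) (X : Ω → G) :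
    Hg (prod w w) (fun p => X p.1 + X p.2) ≤ Hg w X + 2 * kap w X := by
  have hl := law_prod (law_prod hw hw) hw
  have hfull := Hg_prod3 hw hw hw X X X
  have a1 : Hg (prod (prod w w) w) (fun p => ((X p.1.1, X p.1.2), X p.2)) +
      Hg (prod (prod w w) w) (fun p => X p.1.1 - (X p.1.2 + X p.2)) ≤
      Hg (prod (prod w w) w) (fun p => (X p.1.1 - X p.1.2, X p.2)) +
      Hg (prod (prod w w) w) (fun p => (X p.1.1 - X p.2, X p.1.2)) := by
    refine Hg_sub_of hl ?_ ?_ ?_
    · intro p q h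
      simp only [Prod.mk.injEq] at h
      rw [← sub_sub, ← sub_sub, h.1, h.2]
    · intro p q h
      simp only [Prod.mk.injEq] at h
      have e : ∀ a b c : G, a - (b + c) = (a - c) - b := fun a b c => by abel
      rw [e, e (X q.1.1), h.1, h.2]
    · intro p q h3 h4
      simp only [Prod.mk.injEq] at h3 h4
      have h5 : X p.1.1 = X q.1.1 := by
        have := h3.1
        rw [h4.2] at this
        exact sub_left_inj.1 this
      exact Prod.ext (Prod.ext h5 h4.2) h3.2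
  have a2 := Hg_add_of hl (X := fun p : (Ω × Ω) × Ω => X p.1.1 - X p.1.2)
    (Y := fun p : (Ω × Ω) × Ω => X p.2)
    (W := fun p : (Ω × Ω) × Ω => (X p.1.1 - X p.1.2, X p.2))
    (fun p q h3 h4 => Prod.ext h3 h4)
  have a3 := Hg_add_of hl (X := fun p : (Ω × Ω) × Ω => X p.1.1 - X p.2)
    (Y := fun p : (Ω × Ω) × Ω => X p.1.2)
    (W := fun p : (Ω × Ω) × Ω => (X p.1.1 - X p.2, X p.1.2))
    (fun p q h3 h4 => Prod.ext h3 h4)
  have a4 : Hg (prod (prod w w) w) (fun p => X p.1.1 - X p.1.2) =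
      Hg (prod w w) (fun p => X p.1 - X p.2) :=
    Hg_12 hw hw hw (fun p : Ω × Ω => X p.1 - X p.2)
  have a5 : Hg (prod (prod w w) w) (fun p => X p.1.1 - X p.2) =
      Hg (prod w w) (fun p => X p.1 - X p.2) :=
    Hg_13 hw hw hw (fun p : Ω × Ω => X p.1 - X p.2)
  have a6 : Hg (prod (prod w w) w) (fun p => X p.2) = Hg w X := Hg_snd (law_prod hw hw) hw X
  have a7 : Hg (prod (prod w w) w) (fun p => X p.1.2) = Hg w X := by
    rw [Hg_12 hw hw hw (fun p : Ω × Ω => X p.2), Hg_snd hw hw X]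
  -- drop the difference
  have c1 : Hg (prod (prod w w) w) (fun p => X p.1.2 + X p.2) =
      Hg (prod w w) (fun p => X p.1 + X p.2) :=
    Hg_23 hw hw hw (fun p : Ω × Ω => X p.1 + X p.2)
  have c2 : Hg (prod (prod w w) w) (fun p => (X p.1.1, X p.1.2 + X p.2)) =
      Hg w X + Hg (prod w w) (fun p => X p.1 + X p.2) := by
    have h1 : Hg (prod (prod w w) w) (fun p => (X p.1.1, X p.1.2 + X p.2)) =
        Hg (prod w (prod w w)) (fun p => (X p.1, X p.2.1 + X p.2.2)) := by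
      obtain ⟨Y, hY⟩ := exists_code (law_prod hw (law_prod hw hw))
        (fun p : Ω × Ω × Ω => (X p.1, X p.2.1 + X p.2.2))
      rw [Hg_congr hY, Hg_congr (Y := fun p : (Ω × Ω) × Ω => Y (p.1.1, p.1.2, p.2))
        (fun p q => hY (p.1.1, p.1.2, p.2) (q.1.1, q.1.2, q.2)), Hg_eq_H, Hg_eq_H]
      unfold H
      congr 1
      funext a
      unfold push
      rw [← Equiv.sum_comp (Equiv.prodAssoc Ω Ω Ω)]
      refine Finset.sum_congr rfl fun p _ => ?_
      obtain ⟨⟨u, v⟩, x⟩ := p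
      have hp : prod (prod w w) w ((u, v), x) = prod w (prod w w) (u, v, x) := by
        change w u * w v * w x = w u * (w v * w x)
        ring
      by_cases h : Y (u, v, x) = a
      · exact (if_pos h).trans (hp.trans (if_pos h).symm)
      · exact (if_neg h).trans (if_neg h).symm
    rw [h1, Hg_prod hw (law_prod hw hw) X (fun q : Ω × Ω => X q.1 + X q.2)]
  have c3 := Hg_add_of hl (X := fun p : (Ω × Ω) × Ω => X p.1.1 - (X p.1.2 + X p.2))
    (Y := fun p : (Ω × Ω) × Ω => X p.1.1)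
    (W := fun p : (Ω × Ω) × Ω => (X p.1.1, X p.1.2 + X p.2)) (fun p q h3 h4 => by
      have h3' : X p.1.1 - (X p.1.2 + X p.2) = X q.1.1 - (X q.1.2 + X q.2) := h3
      have h4' : X p.1.1 = X q.1.1 := h4
      rw [h4'] at h3'
      exact Prod.ext h4' (sub_right_inj.1 h3'))
  have c4 : Hg (prod (prod w w) w) (fun p => X p.1.1) = Hg w X := by
    rw [Hg_12 hw hw hw (fun p : Ω × Ω => X p.1), Hg_fst hw hw X]
  unfold kap
  linarith

/-- entropic PFR for a variable with values in a coset of a finite group of exponent `e` -/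
theorem pfr_coset_m (t : ℕ) (ht : 1 ≤ t) {e : ℕ} (he1 : 1 ≤ e) (het : e ≤ 2 ^ t)
    {wc : Ωc → ℝ} (hwc : Law wc) (Z : Ωc → G) (W : AddSubgroup G) [Finite W]
    (hW : ∀ x ∈ W, e • x = 0) (hZ : ∀ ω ω', (Z ω : G ⧸ W) = Z ω') :
    ∃ W' ≤ W, Hg wc (fun ω => (Z ω : G ⧸ W')) ≤ 41004 * t * kap wc Z ∧
      Real.log (Nat.card W') - Hg wc Z ≤ 41004 * t * kap wc Z := by
  have : Fintype W := Fintype.ofFinite W
  have : NeZero e := ⟨by omega⟩
  obtain ⟨ω₀⟩ := law_nonempty hwc
  have hmem : ∀ ω, Z ω - Z ω₀ ∈ W := by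
    intro ω
    have h1 := hZ ω₀ ω
    rw [QuotientAddGroup.eq] at h1
    have h2 : Z ω - Z ω₀ = -Z ω₀ + Z ω := by abel
    rw [h2]
    exact h1
  set T : Ωc → W := fun ω => ⟨Z ω - Z ω₀, hmem ω⟩ with hT
  have hτ : Law (push wc T) := law_push hwc T
  let _ : Module (ZMod e) W := AddCommGroup.zmodModule (fun x => Subtype.ext (by
    rw [AddSubgroup.coe_nsmul, AddSubgroup.coe_zero]
    exact hW x x.2))
  obtain ⟨G', hG1, hG2⟩ := Pool.Agent.TH404.Tor.entropic_marton (m := e) t ht het hτ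
  have hTZ : ∀ ω ω', T ω = T ω' ↔ Z ω = Z ω' := by
    intro ω ω'
    rw [Subtype.ext_iff]
    change Z ω - Z ω₀ = Z ω' - Z ω₀ ↔ _
    exact sub_left_inj
  have e1 : ent (push wc T) = Hg wc Z := by
    rw [← Hg_congr hTZ, Hg_eq_H]
    rfl
  have e2 : ent (conv (push wc T) (push wc T)) = Hg (prod wc wc) (fun p => Z p.1 + Z p.2) := by
    unfold conv
    rw [prod_push, push_push]
    have h1 : ent (push (prod wc wc) (fun p : Ωc × Ωc => T p.1 + T p.2)) =
        Hg (prod wc wc) (fun p : Ωc × Ωc => T p.1 + T p.2) := by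
      rw [Hg_eq_H]
      rfl
    rw [h1]
    refine Hg_congr fun p q => ?_
    have h2 : ∀ p : Ωc × Ωc, ((T p.1 + T p.2 : W) : G) = (Z p.1 + Z p.2) - (Z ω₀ + Z ω₀) := by
      intro p
      push_cast
      change (Z p.1 - Z ω₀) + (Z p.2 - Z ω₀) = _
      abel
    rw [Subtype.ext_iff, h2, h2]
    exact sub_left_inj
  have hs := Hg_sum hwc Z
  refine ⟨G'.map W.subtype, ?_, ?_, ?_⟩
  · intro x hx
    obtain ⟨t, _, rfl⟩ := AddSubgroup.mem_map.1 hx
    exact t.2
  · have e3 : entMod (push wc T) G' = Hg wc (fun ω => (Z ω : G ⧸ G'.map W.subtype)) := by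
      unfold entMod
      rw [H_push, ← Hg_eq_H]
      refine Hg_congr fun ω ω' => ?_
      rw [QuotientAddGroup.eq, QuotientAddGroup.eq]
      have h1 : -Z ω + Z ω' = ((-T ω + T ω' : W) : G) := by
        push_cast
        change _ = -(Z ω - Z ω₀) + (Z ω' - Z ω₀)
        abel
      rw [h1]
      constructor
      · intro h
        exact AddSubgroup.mem_map.2 ⟨_, h, rfl⟩
      · intro h
        obtain ⟨u, hu, hu2⟩ := AddSubgroup.mem_map.1 h
        have : u = -T ω + T ω' := Subtype.ext hu2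
        rw [← this]
        exact hu
    rw [e1, e2, e3] at hG1
    refine hG1.trans ?_
    have h5 : (0 : ℝ) ≤ 20502 * t := by positivity
    nlinarith
  · have hcard : Nat.card (G'.map W.subtype) = Nat.card G' :=
      AddSubgroup.card_map_of_injective W.subtype_injective
    rw [hcard]
    rw [e1, e2] at hG2
    refine hG2.trans ?_
    have h5 : (0 : ℝ) ≤ 20502 * t := by positivity
    nlinarith

/-- **Stage lemma**, exponent `e ≤ 2 ^ t`. -/
theorem stage_m (t : ℕ) (ht : 1 ≤ t) {e : ℕ} (he1 : 1 ≤ e) (het : e ≤ 2 ^ t)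
    {w : Ω → ℝ} (hw : Law w) (X : Ω → G) (W : AddSubgroup G) [Finite W]
    (hW : ∀ x ∈ W, e • x = 0) :
    ∃ W' ≤ W, 2 * Hg w (fun ω => (X ω : G ⧸ W')) + Real.log (Nat.card W') ≤
      Hg w X + Hg w (fun ω => (X ω : G ⧸ W)) +
        246026 * t * (kap w X - kap w (fun ω => (X ω : G ⧸ W))) := by
  obtain ⟨C, hC⟩ := exists_code hw (fun ω => (X ω : G ⧸ W))
  obtain ⟨c, hc, hsel⟩ := select hw X C
  have hwc := law_cw hw C hc
  have hZ : ∀ ω ω' : {ω : Ω // C ω = c}, ((fun ω : {ω : Ω // C ω = c} => X ω.1) ω : G ⧸ W) =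
      ((fun ω : {ω : Ω // C ω = c} => X ω.1) ω' : G) := by
    intro ω ω'
    exact (hC _ _).2 (ω.2.trans ω'.2.symm)
  obtain ⟨W', hW', hpfr1, hpfr2⟩ :=
    pfr_coset_m t ht he1 het hwc (fun ω : {ω : Ω // C ω = c} => X ω.1) W hW hZ
  have hdbl := fibre_dbl hw hwc X (fun ω : {ω : Ω // C ω = c} => X ω.1) W hZ
  have htri := tri hw hwc X (fun ω : {ω : Ω // C ω = c} => X ω.1) W'
  have hfib := fibring hw X (QuotientAddGroup.mk' W)
  have g1 : Hg w C = Hg w (fun ω => (X ω : G ⧸ W)) := (Hg_congr hC).symm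
  have g2 : Hg (prod w w) (fun p => (X p.1 - X p.2, C p.2)) =
      Hg (prod w w) (fun p => (X p.1 - X p.2, (X p.2 : G ⧸ W))) :=
    Hg_congr fun p q => by simp only [Prod.mk.injEq, hC]
  have g3 : Hg w (fun ω => (X ω, C ω)) = Hg w X :=
    Hg_congr fun ω ω' => by
      simp only [Prod.mk.injEq, ← hC]
      constructor
      · intro h
        exact h.1
      · intro h
        exact ⟨h, by rw [h]⟩
  rw [g1, g2, g3] at hsel
  have g4 : Hg (prod w w) (fun p => (X p.1 - X p.2, (X p.2 : G ⧸ W))) ≤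
      Hg w X + Hg w (fun ω => (X ω : G ⧸ W)) + (kap w X - kap w (fun ω => (X ω : G ⧸ W))) := hfib
  refine ⟨W', hW', ?_⟩
  set Δ := kap w X - kap w (fun ω => (X ω : G ⧸ W)) with hΔ
  have hΔ0 : 0 ≤ Δ := by
    have := kap_hom hw X (QuotientAddGroup.mk' W)
    rw [hΔ]
    exact sub_nonneg.2 this
  have hkz : kap (cw w C c) (fun ω : {ω : Ω // C ω = c} => X ω.1) ≤ 2 * Δ := by
    unfold kap
    linarith
  have ht' : (1 : ℝ) ≤ t := by exact_mod_cast ht
  have h5 : 41004 * (t : ℝ) * kap (cw w C c) (fun ω : {ω : Ω // C ω = c} => X ω.1) ≤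
      82008 * t * Δ := by
    have h6 : (0 : ℝ) ≤ 41004 * t := by positivity
    nlinarith
  have h7 : Δ ≤ t * Δ := by nlinarith
  nlinarith

/-- the stage lemma for a pair `N ≤ M` with `e M ≤ N`; no finiteness -/
theorem stage_pair_m (t : ℕ) (ht : 1 ≤ t) {e : ℕ} (he1 : 1 ≤ e) (het : e ≤ 2 ^ t)
    {w : Ω → ℝ} (hw : Law w) (X : Ω → G) {N M : AddSubgroup G} (h : N ≤ M)
    (h2 : ∀ x ∈ M, e • x ∈ N) :
    ∃ N' : AddSubgroup G, N ≤ N' ∧ N' ≤ M ∧ N.relIndex N' ≠ 0 ∧
      2 * hh w X N' + Real.log (N.relIndex N') ≤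
        hh w X N + hh w X M + 246026 * t * (kk w X N - kk w X M) := by
  -- the reduced group
  set M' : AddSubgroup G := N ⊔ red X M with hM'
  have hNM' : N ≤ M' := le_sup_left
  have hM'M : M' ≤ M := sup_le h (red_le X M)
  have hhM' : hh w X M' = hh w X M := by
    refine Hg_congr fun ω ω' => ?_
    rw [QuotientAddGroup.eq, QuotientAddGroup.eq]
    exact ⟨fun h => hM'M h, fun h => (le_sup_right : red X M ≤ M') (mem_red X M h)⟩
  have hkM' : kk w X M ≤ kk w X M' := kk_anti hw X hM'M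
  have hmap : M'.map (QuotientAddGroup.mk' N) = (red X M).map (QuotientAddGroup.mk' N) := by
    rw [hM', AddSubgroup.map_sup]
    have h1 : N.map (QuotientAddGroup.mk' N) = ⊥ := by
      rw [AddSubgroup.map_eq_bot_iff, QuotientAddGroup.ker_mk']
    rw [h1, bot_sup_eq]
  have hfinW : Finite (M'.map (QuotientAddGroup.mk' N)) := by
    rw [hmap]
    have hfg : ((red X M).map (QuotientAddGroup.mk' N)).FG := by
      obtain ⟨S, hS⟩ := red_fg X M
      refine ⟨S.image (QuotientAddGroup.mk' N), ?_⟩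
      rw [Finset.coe_image, ← AddMonoidHom.map_closure, hS]
    have h1 : AddGroup.FG ((red X M).map (QuotientAddGroup.mk' N)) :=
      (AddGroup.fg_iff_addSubgroup_fg _).2 hfg
    refine @AddCommGroup.finite_of_fg_isAddTorsion _ _ h1 ?_
    rintro ⟨x, hx⟩
    obtain ⟨y, hy, rfl⟩ := AddSubgroup.mem_map.1 hx
    rw [isOfFinAddOrder_iff_nsmul_eq_zero]
    refine ⟨e, by omega, Subtype.ext ?_⟩
    rw [AddSubgroup.coe_nsmul, AddSubgroup.coe_zero, ← map_nsmul]
    exact (QuotientAddGroup.eq_zero_iff (N := N) (e • y)).2 (h2 y (red_le X M hy))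
  have hc := card_map_mk N M'
  have hW : ∀ x ∈ M'.map (QuotientAddGroup.mk' N), e • x = 0 := by
    intro x hx
    obtain ⟨m, hm, rfl⟩ := AddSubgroup.mem_map.1 hx
    rw [← map_nsmul]
    exact (QuotientAddGroup.eq_zero_iff (N := N) (e • m)).2 (h2 m (hM'M hm))
  obtain ⟨W', hW', hst⟩ := stage_m t ht he1 het hw (fun ω => (X ω : G ⧸ N))
    (M'.map (QuotientAddGroup.mk' N)) hW
  rw [Hg_mk_mk, Hg_mk_mk, kap_mk_mk, comap_map_mk hNM'] at hst
  have hrel : N.relIndex (W'.comap (QuotientAddGroup.mk' N)) = Nat.card W' := by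
    rw [← card_map_mk, AddSubgroup.map_comap_eq_self_of_surjective
      (QuotientAddGroup.mk'_surjective N)]
  have hW'fin : Finite W' := Finite.Set.subset (M'.map (QuotientAddGroup.mk' N) : Set (G ⧸ N)) hW'
  refine ⟨W'.comap (QuotientAddGroup.mk' N), ?_, ?_, ?_, ?_⟩
  · intro x hx
    rw [AddSubgroup.mem_comap]
    have h1 : QuotientAddGroup.mk' N x = 0 := (QuotientAddGroup.eq_zero_iff (N := N) x).2 hx
    rw [h1]
    exact W'.zero_mem
  · have h1 := AddSubgroup.comap_mono (f := QuotientAddGroup.mk' N) hW'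
    rw [comap_map_mk hNM'] at h1
    exact h1.trans hM'M
  · rw [hrel]
    exact Nat.card_pos.ne'
  · rw [hrel]
    have ht' : (0 : ℝ) ≤ 246026 * t := by positivity
    have h5 : 246026 * (t : ℝ) * (kk w X N - kk w X M') ≤
        246026 * t * (kk w X N - kk w X M) :=
      mul_le_mul_of_nonneg_left (by linarith) ht'
    have h6 : kap w (fun ω => (X ω : G ⧸ N)) = kk w X N := rfl
    have h7 : Hg w (fun ω => (X ω : G ⧸ N)) = hh w X N := rfl
    rw [h6, h7, hhM'] at hst
    linarith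

end Pool.Agent.X164.FM
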