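import Pool.Agent.X164.FM.Stage
import Pool.Agent.H137R2.Weak.Unif
set_option autoImplicit false

/-! Choice of a subset with constant digit classes. -/

open scoped Classical Pointwise
set_option linter.unusedSectionVars false
set_option linter.unusedVariables false

namespace Pool.Agent.X164.FM

open H137.PFR H137.TwoPow H137.Weak

/-- one level: choose for each value of `P` a value of `Q` -/
theorem choose_level {Ω α β : Type*} [Fintype Ω] {w : Ω → ℝ} (hw : Law w) (P : Ω → α) (Q : Ω → β)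
    (hQP : ∀ ω ω', Q ω = Q ω' → P ω = P ω') (g : Ω → ℝ) (hg : ∀ ω, 0 ≤ g ω) :
    ∃ s : α → β, ∑ ω, g ω * (push w Q (Q ω) / push w P (P ω)) ≤
      ∑ ω, g ω * (if Q ω = s (P ω) then 1 else 0) := by
  have hne : Nonempty Ω := law_nonempty hw
  obtain ⟨ω₀⟩ := hne
  -- the weight of a class
  set c : β → ℝ := fun v => ∑ ω, (if Q ω = v then g ω else 0) with hc
  -- the best class of a node
  have hbest : ∀ u : α, ∃ v : β, ∀ ω, P ω = u → c (Q ω) ≤ c v := by
    intro u
    by_cases h : (Finset.univ.filter fun ω : Ω => P ω = u).Nonempty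
    · obtain ⟨ω, _, hmax⟩ := Finset.exists_max_image _ (fun ω => c (Q ω)) h
      exact ⟨Q ω, fun ω' hω' => hmax ω' (Finset.mem_filter.2 ⟨Finset.mem_univ _, hω'⟩)⟩
    · refine ⟨Q ω₀, fun ω hω => ?_⟩
      exact absurd ⟨ω, Finset.mem_filter.2 ⟨Finset.mem_univ _, hω⟩⟩ h
  have hbest2 : ∀ u : α, ∃ v : β, (∀ ω, P ω = u → c (Q ω) ≤ c v) ∧
      ((∃ ω, P ω = u) → ∃ ω, P ω = u ∧ Q ω = v) := by
    intro u
    by_cases h : (Finset.univ.filter fun ω : Ω => P ω = u).Nonempty
    · obtain ⟨ω, hω, hmax⟩ := Finset.exists_max_image _ (fun ω => c (Q ω)) h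
      exact ⟨Q ω, fun ω' hω' => hmax ω' (Finset.mem_filter.2 ⟨Finset.mem_univ _, hω'⟩),
        fun _ => ⟨ω, (Finset.mem_filter.1 hω).2, rfl⟩⟩
    · refine ⟨Q ω₀, fun ω hω => ?_, fun ⟨ω, hω⟩ => ?_⟩
      · exact absurd ⟨ω, Finset.mem_filter.2 ⟨Finset.mem_univ _, hω⟩⟩ h
      · exact absurd ⟨ω, Finset.mem_filter.2 ⟨Finset.mem_univ _, hω⟩⟩ h
  choose s hs1 hs2 using hbest2
  refine ⟨s, ?_⟩
  -- group by the value of `P`
  set U : Finset α := Finset.univ.image P with hU
  have e1 : ∀ F : Ω → ℝ, ∑ ω, F ω = ∑ u ∈ U, ∑ ω ∈ Finset.univ.filter (fun ω => P ω = u), F ω := by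
    intro F
    exact (Finset.sum_fiberwise_of_maps_to (fun ω _ => Finset.mem_image_of_mem P (Finset.mem_univ ω)) F).symm
  rw [e1, e1 (fun ω => g ω * (if Q ω = s (P ω) then 1 else 0))]
  refine Finset.sum_le_sum fun u hu => ?_
  obtain ⟨ω₁, _, hω₁⟩ := Finset.mem_image.1 hu
  -- right hand side
  have hr : ∑ ω ∈ Finset.univ.filter (fun ω => P ω = u), g ω * (if Q ω = s (P ω) then 1 else 0) =
      c (s u) := by
    obtain ⟨ω₂, hω₂, hq⟩ := hs2 u ⟨ω₁, hω₁⟩
    rw [Finset.sum_filter]
    refine Finset.sum_congr rfl fun ω _ => ?_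
    by_cases h : P ω = u
    · rw [if_pos h, h]
      by_cases h2 : Q ω = s u
      · rw [if_pos h2, if_pos h2, mul_one]
      · rw [if_neg h2, if_neg h2, mul_zero]
    · rw [if_neg h, if_neg]
      intro h2
      exact h ((hQP ω ω₂ (h2.trans hq.symm)).trans hω₂)
  rw [hr]
  -- left hand side, group by the value of `Q`
  set B : Finset β := (Finset.univ.filter (fun ω => P ω = u)).image Q with hB
  have e2 : ∀ F : Ω → ℝ, ∑ ω ∈ Finset.univ.filter (fun ω => P ω = u), F ω =
      ∑ v ∈ B, ∑ ω ∈ (Finset.univ.filter (fun ω => P ω = u)).filter (fun ω => Q ω = v), F ω := by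
    intro F
    exact (Finset.sum_fiberwise_of_maps_to (fun ω hω => Finset.mem_image_of_mem Q hω) F).symm
  have hfil : ∀ v ∈ B, (Finset.univ.filter (fun ω => P ω = u)).filter (fun ω => Q ω = v) =
      Finset.univ.filter (fun ω => Q ω = v) := by
    intro v hv
    obtain ⟨ω₂, hω₂, rfl⟩ := Finset.mem_image.1 hv
    ext ω
    simp only [Finset.mem_filter, Finset.mem_univ, true_and]
    constructor
    · intro h
      exact h.2
    · intro h
      exact ⟨(hQP ω ω₂ h).trans (Finset.mem_filter.1 hω₂).2, h⟩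
  have hl : ∑ ω ∈ Finset.univ.filter (fun ω => P ω = u), g ω * (push w Q (Q ω) / push w P (P ω)) =
      ∑ v ∈ B, c v * (push w Q v / push w P u) := by
    rw [e2]
    refine Finset.sum_congr rfl fun v hv => ?_
    rw [hfil v hv, hc]
    simp only
    rw [Finset.sum_mul, Finset.sum_filter]
    refine Finset.sum_congr rfl fun ω _ => ?_
    by_cases h : Q ω = v
    · have h3 : P ω = u := by
        have := Finset.ext_iff.1 (hfil v hv) ω
        simp only [Finset.mem_filter, Finset.mem_univ, true_and] at this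
        exact (this.2 h).1
      rw [if_pos h, if_pos h, h, h3]
    · rw [if_neg h, if_neg h, zero_mul]
  rw [hl]
  have hpush0 : ∀ v, 0 ≤ push w Q v := fun v => by
    unfold push
    exact Finset.sum_nonneg fun ω _ => by split_ifs; exacts [hw.1 ω, le_refl _]
  have hpushP0 : 0 ≤ push w P u := by
    unfold push
    exact Finset.sum_nonneg fun ω _ => by split_ifs; exacts [hw.1 ω, le_refl _]
  have hc0 : ∀ v, 0 ≤ c v := fun v =>
    Finset.sum_nonneg fun ω _ => by split_ifs; exacts [hg ω, le_refl _]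
  have hsumB : ∑ v ∈ B, push w Q v = push w P u := by
    have h1 : push w P u = ∑ ω ∈ Finset.univ.filter (fun ω => P ω = u), w ω := by
      unfold push
      rw [Finset.sum_filter]
    rw [h1, e2]
    refine Finset.sum_congr rfl fun v hv => ?_
    rw [hfil v hv]
    unfold push
    rw [Finset.sum_filter]
  calc ∑ v ∈ B, c v * (push w Q v / push w P u)
      ≤ ∑ v ∈ B, c (s u) * (push w Q v / push w P u) := by
        refine Finset.sum_le_sum fun v hv => ?_
        obtain ⟨ω₂, hω₂, rfl⟩ := Finset.mem_image.1 hv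
        exact mul_le_mul_of_nonneg_right (hs1 u ω₂ (Finset.mem_filter.1 hω₂).2)
          (div_nonneg (hpush0 _) hpushP0)
    _ = c (s u) * ((∑ v ∈ B, push w Q v) / push w P u) := by
        rw [← Finset.mul_sum, Finset.sum_div]
    _ ≤ c (s u) * 1 := by
        refine mul_le_mul_of_nonneg_left ?_ (hc0 _)
        rw [hsumB]
        exact div_self_le_one _
    _ = c (s u) := mul_one _

/-- all levels -/
theorem choose_levels {Ω : Type*} [Fintype Ω] {w : Ω → ℝ} (hw : Law w) (k : ℕ)
    {α β : ℕ → Type*} (P : ∀ j, Ω → α j) (Q : ∀ j, Ω → β j)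
    (hQP : ∀ j < k, ∀ ω ω', Q j ω = Q j ω' → P j ω = P j ω') :
    ∃ s : ∀ j, α j → β j,
      ∑ ω, w ω * ∏ j ∈ Finset.range k, (push w (Q j) (Q j ω) / push w (P j) (P j ω)) ≤
        ∑ ω, w ω * ∏ j ∈ Finset.range k, (if Q j ω = s j (P j ω) then 1 else 0) := by
  obtain ⟨ω₀⟩ := law_nonempty hw
  have hp0 : ∀ j ω, 0 ≤ push w (Q j) (Q j ω) / push w (P j) (P j ω) := by
    intro j ω
    refine div_nonneg ?_ ?_
    · unfold push
      exact Finset.sum_nonneg fun ω _ => by split_ifs; exacts [hw.1 ω, le_refl _]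
    · unfold push
      exact Finset.sum_nonneg fun ω _ => by split_ifs; exacts [hw.1 ω, le_refl _]
  suffices h : ∀ i ≤ k, ∃ s : ∀ j, α j → β j,
      ∑ ω, w ω * ∏ j ∈ Finset.range k, (push w (Q j) (Q j ω) / push w (P j) (P j ω)) ≤
        ∑ ω, w ω * ∏ j ∈ Finset.range k,
          (if j < i then (if Q j ω = s j (P j ω) then 1 else 0) else
            push w (Q j) (Q j ω) / push w (P j) (P j ω)) by
    obtain ⟨s, hs⟩ := h k le_rfl
    refine ⟨s, hs.trans (le_of_eq ?_)⟩
    refine Finset.sum_congr rfl fun ω _ => ?_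
    congr 1
    refine Finset.prod_congr rfl fun j hj => ?_
    rw [if_pos (Finset.mem_range.1 hj)]
  intro i
  induction i with
  | zero =>
    intro _
    refine ⟨fun j _ => Q j ω₀, le_of_eq ?_⟩
    refine Finset.sum_congr rfl fun ω _ => ?_
    congr 1
  | succ i ih =>
    intro hi
    obtain ⟨s, hs⟩ := ih (by omega)
    set R : ℕ → Ω → ℝ := fun j ω => (if j < i then (if Q j ω = s j (P j ω) then 1 else 0) else
            push w (Q j) (Q j ω) / push w (P j) (P j ω)) with hR
    have hR0 : ∀ j ω, 0 ≤ R j ω := by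
      intro j ω
      simp only [hR]
      split_ifs
      · exact zero_le_one
      · exact le_rfl
      · exact hp0 j ω
    obtain ⟨σ, hσ⟩ := choose_level hw (P i) (Q i) (hQP i (by omega))
      (fun ω => w ω * ∏ j ∈ (Finset.range k).erase i, R j ω)
      (fun ω => mul_nonneg (hw.1 ω) (Finset.prod_nonneg fun j _ => hR0 j ω))
    refine ⟨Function.update s i σ, hs.trans ?_⟩
    have hik : i ∈ Finset.range k := Finset.mem_range.2 (by omega)
    have e1 : ∑ ω, w ω * ∏ j ∈ Finset.range k, R j ω =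
        ∑ ω, (w ω * ∏ j ∈ (Finset.range k).erase i, R j ω) *
          (push w (Q i) (Q i ω) / push w (P i) (P i ω)) := by
      refine Finset.sum_congr rfl fun ω _ => ?_
      rw [← Finset.prod_erase_mul _ _ hik, ← mul_assoc]
      congr 1
      simp only [hR]
      rw [if_neg (lt_irrefl i)]
    change ∑ ω, w ω * ∏ j ∈ Finset.range k, R j ω ≤ _
    rw [e1]
    refine hσ.trans (le_of_eq ?_)
    refine Finset.sum_congr rfl fun ω _ => ?_
    rw [← Finset.prod_erase_mul (Finset.range k) _ hik, ← mul_assoc]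
    congr 1
    · congr 1
      refine Finset.prod_congr rfl fun j hj => ?_
      have hji : j ≠ i := Finset.ne_of_mem_erase hj
      simp only [hR]
      by_cases h : j < i
      · rw [if_pos h, if_pos (show j < i + 1 by omega), Function.update_of_ne hji]
      · rw [if_neg h, if_neg (show ¬ j < i + 1 by omega)]
    · rw [if_pos (Nat.lt_succ_self i), Function.update_self]

/-- Jensen -/
theorem exp_sum_le {Ω : Type*} [Fintype Ω] {w : Ω → ℝ} (hw : Law w) (x y : Ω → ℝ)
    (hxy : ∀ ω, w ω ≠ 0 → Real.exp (x ω) ≤ y ω) :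
    Real.exp (∑ ω, w ω * x ω) ≤ ∑ ω, w ω * y ω := by
  set S := ∑ ω, w ω * x ω with hS
  have h1 : ∀ ω, w ω * (Real.exp S * (1 + (x ω - S))) ≤ w ω * y ω := by
    intro ω
    by_cases h : w ω = 0
    · rw [h, zero_mul, zero_mul]
    · refine mul_le_mul_of_nonneg_left ?_ (hw.1 ω)
      refine le_trans ?_ (hxy ω h)
      have h2 := Real.add_one_le_exp (x ω - S)
      have h3 : Real.exp (x ω) = Real.exp S * Real.exp (x ω - S) := by
        rw [← Real.exp_add]; congr 1; ring
      rw [h3]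
      exact mul_le_mul_of_nonneg_left (by linarith) (Real.exp_pos _).le
  have h2 : ∑ ω, w ω * (Real.exp S * (1 + (x ω - S))) = Real.exp S := by
    have h3 : ∀ ω, w ω * (Real.exp S * (1 + (x ω - S))) =
        Real.exp S * ((1 - S) * w ω + w ω * x ω) := fun ω => by ring
    simp_rw [h3]
    rw [← Finset.mul_sum, Finset.sum_add_distrib, ← Finset.mul_sum, hw.2, ← hS]
    ring
  rw [← h2]
  exact Finset.sum_le_sum fun ω _ => h1 ω

theorem push_self_pos {Ω γ : Type*} [Fintype Ω] {w : Ω → ℝ} (hw : Law w) (F : Ω → γ) (ω : Ω)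
    (hω : w ω ≠ 0) : 0 < push w F (F ω) := by
  unfold push
  refine Finset.sum_pos' (fun ω _ => by split_ifs; exacts [hw.1 _, le_refl _])
    ⟨ω, Finset.mem_univ _, ?_⟩
  rw [if_pos rfl]
  exact lt_of_le_of_ne (hw.1 ω) (Ne.symm hω)

/-- product of conditional probabilities, from below -/
theorem prod_lower {Ω : Type*} [Fintype Ω] {w : Ω → ℝ} (hw : Law w) (k : ℕ)
    {α β : ℕ → Type*} (P : ∀ j, Ω → α j) (Q : ∀ j, Ω → β j) :
    Real.exp (-∑ j ∈ Finset.range k, (Hg w (Q j) - Hg w (P j))) ≤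
      ∑ ω, w ω * ∏ j ∈ Finset.range k, (push w (Q j) (Q j ω) / push w (P j) (P j ω)) := by
  have h1 : -∑ j ∈ Finset.range k, (Hg w (Q j) - Hg w (P j)) =
      ∑ ω, w ω * ∑ j ∈ Finset.range k,
        (Real.log (push w (Q j) (Q j ω)) - Real.log (push w (P j) (P j ω))) := by
    simp_rw [Finset.mul_sum]
    rw [Finset.sum_comm, ← Finset.sum_neg_distrib]
    refine Finset.sum_congr rfl fun j _ => ?_
    unfold Hg
    rw [← Finset.sum_sub_distrib, ← Finset.sum_neg_distrib]
    refine Finset.sum_congr rfl fun ω _ => ?_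
    ring
  rw [h1]
  refine exp_sum_le hw _ _ fun ω hω => ?_
  rw [Real.exp_sum]
  refine le_of_eq (Finset.prod_congr rfl fun j _ => ?_)
  rw [Real.exp_sub, Real.exp_log, Real.exp_log]
  · exact push_self_pos hw (P j) ω hω
  · exact push_self_pos hw (Q j) ω hω

end Pool.Agent.X164.FM
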